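import Mathlib

set_option autoImplicit false

namespace Pool.Agent.Results.MP_b6be33_co.NineVertex

/-- `P` is an isomorphism from `G` onto its complement. -/
def IsIsoPerm {V : Type} (G : SimpleGraph V) (P : Equiv.Perm V) : Prop :=
  ∀ u v : V, u ≠ v → (G.Adj u v ↔ ¬ G.Adj (P u) (P v))

/-- The set `F(G)` of vertices fixed by some isomorphism-permutation. -/
def FSet {V : Type} (G : SimpleGraph V) : Set V :=
  {v | ∃ P : Equiv.Perm V, IsIsoPerm G P ∧ P v = v}

/-- neighbours of a vertex of the graph on 9 vertices -/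
def nbrs : Fin 9 → List (Fin 9) :=
  ![[3, 4, 5, 6], [2, 3, 4, 8], [1, 4, 6, 7], [0, 1, 6, 8], [0, 1, 2, 7], [0, 6, 7, 8],
    [0, 2, 3, 5], [2, 4, 5, 8], [1, 3, 5, 7]]

/-- the graph on 9 vertices -/
def H : SimpleGraph (Fin 9) where
  Adj x y := y ∈ nbrs x
  symm := ⟨by decide +kernel⟩
  loopless := ⟨by
    have : ∀ x : Fin 9, ¬ x ∈ nbrs x := by decide +kernel
    exact this⟩

instance : DecidableRel H.Adj := fun x y => inferInstanceAs (Decidable (y ∈ nbrs x))

/-- the isomorphism-permutation (0 1 2 3)(4 5 6 7)(8) -/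
def sig : Equiv.Perm (Fin 9) where
  toFun := ![1, 2, 3, 0, 5, 6, 7, 4, 8]
  invFun := ![3, 0, 1, 2, 7, 4, 5, 6, 8]
  left_inv := by
    intro x
    revert x
    decide +kernel
  right_inv := by
    intro x
    revert x
    decide +kernel

lemma sig_isIso : IsIsoPerm H sig := by
  unfold IsIsoPerm
  decide +kernel

lemma regular : ∀ v, (H.neighborSet v).ncard = 2 * 2 := by
  intro v
  rw [Set.ncard_eq_toFinset_card']
  revert v
  decide +kernel

lemma triangles : {t : Finset (Fin 9) | H.IsNClique 3 t ∧ (0 : Fin 9) ∈ t}.ncard = 2 * (2 - 1) := by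
  have : {t : Finset (Fin 9) | H.IsNClique 3 t ∧ (0 : Fin 9) ∈ t} =
      (({{0, 3, 6}, {0, 5, 6}} : Finset (Finset (Fin 9))) : Set (Finset (Fin 9))) := by
    ext t
    simp only [Set.mem_ofPred_eq, Finset.coe_insert, Finset.coe_singleton, Set.mem_insert_iff,
      Set.mem_singleton_iff]
    revert t
    decide +kernel
  rw [this, Set.ncard_coe_finset]
  decide +kernel

lemma notFixed : (0 : Fin 9) ∉ FSet H := by
  rintro ⟨P, hP, h0⟩
  -- `4` is isolated in the subgraph induced on the neighbours of `0`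
  have hinj : ∀ x : Fin 9, x ≠ 0 → P x ≠ 0 := by
    intro x hx h
    exact hx (P.injective (h.trans h0.symm))
  have h4 : ¬ H.Adj 0 (P 4) := by
    have := (hP 0 4 (by decide)).1 (by decide +kernel)
    rwa [h0] at this
  have key : ∀ x : Fin 9, x ≠ 0 → ¬ H.Adj 0 x → ∃ c : Fin 9, c ≠ 0 ∧ ¬ H.Adj 0 c ∧ c ≠ x ∧
      ¬ H.Adj x c := by decide +kernel
  obtain ⟨c, hc0, hc1, hc2, hc3⟩ := key (P 4) (hinj 4 (by decide)) h4
  obtain ⟨b, rfl⟩ := P.surjective c
  have hb0 : b ≠ 0 := by
    rintro rfl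
    exact hc0 h0
  have hb1 : H.Adj 0 b := by
    apply (hP 0 b hb0.symm).2
    rw [h0]
    exact hc1
  have hb4 : (4 : Fin 9) ≠ b := by
    rintro rfl
    exact hc2 rfl
  have hb2 : H.Adj 4 b := (hP 4 b hb4).2 hc3
  have iso : ∀ b : Fin 9, H.Adj 0 b → ¬ H.Adj 4 b := by decide +kernel
  exact iso b hb1 hb2

/-- There are a `k`, a regular self-complementary graph `G` on `4 * k + 1` vertices and a vertex
`v` of `G` lying in exactly `k * (k - 1)` triangles, such that no isomorphism-permutation of `G`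
fixes `v`. -/
theorem result : ∃ (k : ℕ) (V : Type) (_ : Fintype V) (G : SimpleGraph V) (v : V),
    Fintype.card V = 4 * k + 1 ∧
    (∀ u, (G.neighborSet u).ncard = 2 * k) ∧ Nonempty (G ≃g Gᶜ) ∧
    {t : Finset V | G.IsNClique 3 t ∧ v ∈ t}.ncard = k * (k - 1) ∧ v ∉ FSet G := by
  refine ⟨2, Fin 9, inferInstance, H, 0, rfl, regular, ⟨⟨sig, ?_⟩⟩, triangles, notFixed⟩
  intro a b
  rw [SimpleGraph.compl_adj]
  by_cases hab : a = b
  · subst hab
    simp
  · have h := sig_isIso a b hab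
    have hne : sig a ≠ sig b := fun h => hab (sig.injective h)
    constructor
    · rintro ⟨-, h2⟩
      exact h.2 h2
    · intro h2
      exact ⟨hne, h.1 h2⟩

end Pool.Agent.Results.MP_b6be33_co.NineVertex
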